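import Pool.Agent.H26.RK.Final

/-!
# The book thickness of `K_n □ K_n` is at least `c n ^ (8 / 7)`

The proof follows the triangle and packing method of the library theorem `Superlinear`
(exponent `30 / 29`), with two changes: the packing of big monochromatic stars is done over a whole
row at once (not block by block), and the scales of the blocks are chosen so that only one use of
the dense set is needed; afterwards the dense set is treated by an alternative (its columns are
concentrated, or spread), both cases being closed by the same inequality.
-/

set_option autoImplicit false

namespace Pool.Agent.Results.MP_fb44d2_co.EightSevenths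

open Pool.Agent.Results.MP_fb44d2_co.Superlinear in
/-- There is `c > 0` such that the book thickness of `K_n □ K_n` is at least `c n ^ (8 / 7)` for
all `n ≥ 2`. -/
theorem result :
    ∃ c : ℝ, 0 < c ∧ ∀ n : ℕ, 2 ≤ n →
      c * (n : ℝ) ^ ((1 : ℝ) + 1 / 7) ≤ (bookThickness (rook n) : ℝ) :=
  Pool.Agent.H26.RK.main

end Pool.Agent.Results.MP_fb44d2_co.EightSevenths
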