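import Pool.Agent.H26.RK.UpD

/-!
# The book thickness of `K_n □ K_n` is at most `32400 n ^ (4 / 3)`

The rows and the columns are indexed by triples over a prime field with `p ^ 3 ≥ n`. The columns
form `p` blocks of `p ^ 2` columns. A block is placed on consecutive spine positions, row after row.
The rows are ordered in the block `a` by `(x + a y + a ^ 2 z, y + 2 a z, z)`: two of these `p` orders
of `p ^ 3` rows have common subsequences of length at most `4 p` only (moment curve). In the row `R`
the columns `(x, y)` of a block are ordered by `(y - F_R x, x)` where `F_R` is the cubic polynomial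
without constant term whose coefficients are `R`; two of these `p ^ 3` orders have common
subsequences of length at most `8 p` only. Labels for these common subsequences give the pages.
-/

set_option autoImplicit false

namespace Pool.Agent.Results.MP_fb44d2_co.FourThirdsUpper

open Pool.Agent.Results.MP_fb44d2_co.Superlinear in
/-- The book thickness of `K_n □ K_n` is at most `32400 n ^ (4 / 3)` for all `n ≥ 1`. -/
theorem result :
    ∀ n : ℕ, 1 ≤ n →
      (bookThickness (rook n) : ℝ) ≤ 32400 * (n : ℝ) ^ ((1 : ℝ) + 1 / 3) :=
  Pool.Agent.H26.RK.upper

end Pool.Agent.Results.MP_fb44d2_co.FourThirdsUpper
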